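import Mathlib

/-! Events of an iid sequence that are asymptotically invariant under every permutation of the
coordinates are asymptotically trivial. -/

set_option autoImplicit false
open MeasureTheory Set Filter Topology Function
open scoped ENNReal

namespace Pool.Agent.MP_12f186_an

namespace OuterAux

/-- The permutation fixes the first `n` integers. -/
def Fix (n : ℕ) (s : Equiv.Perm ℕ) : Prop := ∀ i < n, s i = i

/-- An infinite product of permutations converging to the identity converges. -/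
theorem exists_limit (p : ℕ → Equiv.Perm ℕ) (n : ℕ → ℕ) (hn : ∀ k, k ≤ n k)
    (hmono : Monotone n) (hfix : ∀ k, Fix (n k) ((p k)⁻¹ * p (k + 1)))
    (hinv : ∀ k, ∀ i < k, (p k)⁻¹ i < n k) :
    ∃ q : Equiv.Perm ℕ, ∀ k, Fix (n k) ((p k)⁻¹ * q) := by
  have step : ∀ k i, i < n k → p (k + 1) i = p k i := by
    intro k i hi
    have := hfix k i hi
    simp only [Equiv.Perm.mul_apply] at this
    rw [Equiv.Perm.inv_eq_iff_eq] at this
    exact this
  have stab : ∀ k j i, k ≤ j → i < n k → p j i = p k i := by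
    intro k j i hkj hi
    induction j, hkj using Nat.le_induction with
    | base => rfl
    | succ j hj ih => rw [step j i (lt_of_lt_of_le hi (hmono hj)), ih]
  let f : ℕ → ℕ := fun i => p (i + 1) i
  have hf : ∀ k i, i < n k → f i = p k i := by
    intro k i hi
    have h1 : i < n (i + 1) := lt_of_lt_of_le (Nat.lt_succ_self i) (hn _)
    rcases le_total k (i + 1) with h | h
    · exact stab k (i + 1) i h hi
    · exact (stab (i + 1) k i h h1).symm
  have hinj : Injective f := by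
    intro a b hab
    have ha : a < n (a + b + 1) := lt_of_lt_of_le (by omega) (hn _)
    have hb : b < n (a + b + 1) := lt_of_lt_of_le (by omega) (hn _)
    rw [hf _ a ha, hf _ b hb] at hab
    exact (p _).injective hab
  have hsurj : Surjective f := by
    intro i
    refine ⟨(p (i + 1))⁻¹ i, ?_⟩
    rw [hf (i + 1) _ (hinv (i + 1) i (Nat.lt_succ_self i))]
    simp
  refine ⟨Equiv.ofBijective f ⟨hinj, hsurj⟩, fun k i hi => ?_⟩
  show (p k)⁻¹ (f i) = i
  rw [hf k i hi]
  simp

/-- Uniform boundedness for continuous length functions on the permutation group. -/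
theorem uniform {ι : Type} [Countable ι] (L : ι → Equiv.Perm ℕ → ℝ)
    (hmul : ∀ v a b, L v (a * b) ≤ L v a + L v b) (hinv : ∀ v a, L v a⁻¹ ≤ L v a)
    (hcont : ∀ v, ∀ ε > 0, ∃ m, ∀ t, Fix m t → L v t ≤ ε)
    (h : ∀ π, Tendsto (fun v => L v π) cofinite (𝓝 0)) (c : ℝ) (hc : 0 < c) :
    ∃ n, ∀ᶠ v in cofinite, ∀ s, Fix n s → L v s ≤ c := by
  by_contra hcon
  simp only [not_exists, not_eventually, not_forall, not_le] at hcon
  obtain ⟨e, he⟩ := Countable.exists_injective_nat ι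
  have hsmall : ∀ π, ∀ᶠ v in cofinite, L v π < c / 4 := fun π =>
    (h π).eventually (gt_mem_nhds (by positivity))
  have hbig : ∀ k : ℕ, ∀ᶠ v in cofinite, k ≤ e v := by
    intro k
    have := he.tendsto_cofinite
    rw [Nat.cofinite_eq_atTop] at this
    exact this.eventually (eventually_ge_atTop k)
  have step : ∀ (k : ℕ) (x : Equiv.Perm ℕ × ℕ), ∃ (y : Equiv.Perm ℕ × ℕ) (v : ι),
      k ≤ e v ∧ Fix x.2 (x.1⁻¹ * y.1) ∧ c < L v (x.1⁻¹ * y.1) ∧ L v x.1 < c / 4 ∧
      x.2 ≤ y.2 ∧ k + 1 ≤ y.2 ∧ (∀ i < k + 1, y.1⁻¹ i < y.2) ∧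
      ∀ t, Fix y.2 t → L v t ≤ c / 4 := by
    intro k x
    obtain ⟨v, ⟨s, hs, hcs⟩, h1, h2⟩ :=
      ((hcon x.2).and_eventually ((hsmall x.1).and (hbig k))).exists
    obtain ⟨m, hm⟩ := hcont v (c / 4) (by positivity)
    let B : ℕ := (Finset.range (k + 1)).sup fun i => (x.1 * s)⁻¹ i
    refine ⟨(x.1 * s, x.2 + (k + 1) + m + B), v, h2, by simpa using hs, by simpa using hcs, h1,
      by simp only; omega, by simp only; omega, fun i hi => ?_, fun t ht => hm t fun i hi => ?_⟩
    · have : (x.1 * s)⁻¹ i ≤ B :=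
        Finset.le_sup (f := fun i => (x.1 * s)⁻¹ i) (Finset.mem_range.2 hi)
      simp only
      omega
    · exact ht i (by simp only; omega)
  choose nxt vv hstep using step
  let x : ℕ → Equiv.Perm ℕ × ℕ := fun k => Nat.rec (1, 0) (fun k y => nxt k y) k
  have hx : ∀ k, x (k + 1) = nxt k (x k) := fun k => rfl
  obtain ⟨q, hq⟩ := exists_limit (fun k => (x k).1) (fun k => (x k).2)
    (fun k => by
      cases k with
      | zero => exact Nat.zero_le _
      | succ k => rw [hx]; exact (hstep k (x k)).2.2.2.2.2.1)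
    (monotone_nat_of_le_succ fun k => by rw [hx]; exact (hstep k (x k)).2.2.2.2.1)
    (fun k => by rw [hx]; exact (hstep k (x k)).2.1)
    (fun k => by
      cases k with
      | zero => intro i hi; omega
      | succ k => rw [hx]; exact (hstep k (x k)).2.2.2.2.2.2.1)
  have hlow : ∀ k, c / 4 ≤ L (vv k (x k)) q := by
    intro k
    obtain ⟨-, -, h3, h4, -, -, -, h8⟩ := hstep k (x k)
    have h9 := h8 _ (by have := hq (k + 1); rw [hx] at this; exact this)
    have e1 : (x k).1⁻¹ * (nxt k (x k)).1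
        = (x k).1⁻¹ * (q * ((nxt k (x k)).1⁻¹ * q)⁻¹) := by group
    rw [e1] at h3
    have a1 := hmul (vv k (x k)) (x k).1⁻¹ (q * ((nxt k (x k)).1⁻¹ * q)⁻¹)
    have a2 := hmul (vv k (x k)) q ((nxt k (x k)).1⁻¹ * q)⁻¹
    have a3 := hinv (vv k (x k)) (x k).1
    have a4 := hinv (vv k (x k)) ((nxt k (x k)).1⁻¹ * q)
    linarith
  have hfin : {v | ¬ L v q < c / 4}.Finite := hsmall q
  obtain ⟨M, hM⟩ := (hfin.image e).bddAbove
  have h1 : e (vv (M + 1) (x (M + 1))) ≤ M :=
    hM ⟨_, not_lt.2 (hlow (M + 1)), rfl⟩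
  have h2 := (hstep (M + 1) (x (M + 1))).1
  omega

/-- Exchange of the blocks `[a, a + l)` and `[a + d, a + d + l)`. -/
def bsf (a l d : ℕ) (i : ℕ) : ℕ :=
  if a ≤ i ∧ i < a + l then i + d else if a + d ≤ i ∧ i < a + d + l then i - d else i

theorem bsf_invol (a l d : ℕ) (h : l ≤ d) : Involutive (bsf a l d) := by
  intro i
  unfold bsf
  split_ifs <;> omega

/-- The block exchange as a permutation. -/
def bs (a l d : ℕ) (h : l ≤ d) : Equiv.Perm ℕ := (bsf_invol a l d h).toPerm _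

theorem bs_apply (a l d : ℕ) (h : l ≤ d) (i : ℕ) : bs a l d h i = bsf a l d i := rfl

theorem bs_fix (a l d : ℕ) (h : l ≤ d) : Fix a (bs a l d h) := by
  intro i hi
  rw [bs_apply]
  unfold bsf
  split_ifs <;> omega

theorem exists_far (n m : ℕ) : ∃ s s' : Equiv.Perm ℕ, Fix n s ∧ Fix n s' ∧
    ∀ i < m, m ≤ (s * (bs 0 n n le_rfl * s')) i := by
  refine ⟨bs n n (n + 2 * m) (by omega), bs n m (n + m) (by omega), bs_fix _ _ _ _,
    bs_fix _ _ _ _, fun i hi => ?_⟩
  simp only [Equiv.Perm.mul_apply, bs_apply]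
  unfold bsf
  split_ifs <;> omega

variable {Ξ : Type} [MeasurableSpace Ξ] (ξ : Measure Ξ) [IsProbabilityMeasure ξ]

/-- Permuting the coordinates. -/
def T (π : Equiv.Perm ℕ) (ω : ℕ → Ξ) : ℕ → Ξ := fun n => ω (π n)

theorem measurable_T (π : Equiv.Perm ℕ) : Measurable (T (Ξ := Ξ) π) := by
  unfold T
  fun_prop

theorem mp_T (π : Equiv.Perm ℕ) : MeasurePreserving (T π)
    (Measure.infinitePi (fun _ : ℕ => ξ)) (Measure.infinitePi (fun _ : ℕ => ξ)) := by
  refine ⟨measurable_T π, ?_⟩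
  exact Measure.map_infinitePi_infinitePi_of_inj (P := fun _ : ℕ => ξ) π.injective

/-- The set where two events differ. -/
def Df (A B : Set (ℕ → Ξ)) : Set (ℕ → Ξ) := {ω | ¬ (ω ∈ A ↔ ω ∈ B)}

theorem measurableSet_Df {A B : Set (ℕ → Ξ)} (hA : MeasurableSet A) (hB : MeasurableSet B) :
    MeasurableSet (Df A B) := by
  have : Df A B = (A \ B) ∪ (B \ A) := by
    ext ω
    simp only [Df, mem_ofPred_eq, mem_union, Set.mem_sdiff]
    tauto
  rw [this]
  exact (hA.diff hB).union (hB.diff hA)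

/-- The displacement of an event under a permutation. -/
noncomputable def len (F : Set (ℕ → Ξ)) (π : Equiv.Perm ℕ) : ℝ :=
  (Measure.infinitePi (fun _ : ℕ => ξ)).real (Df F (T π ⁻¹' F))

theorem real_pre (π : Equiv.Perm ℕ) {A : Set (ℕ → Ξ)} (hA : MeasurableSet A) :
    (Measure.infinitePi (fun _ : ℕ => ξ)).real (T π ⁻¹' A)
      = (Measure.infinitePi (fun _ : ℕ => ξ)).real A := by
  unfold Measure.real
  rw [(mp_T ξ π).measure_preimage hA.nullMeasurableSet]

theorem len_mul {F : Set (ℕ → Ξ)} (hF : MeasurableSet F) (a b : Equiv.Perm ℕ) :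
    len ξ F (a * b) ≤ len ξ F a + len ξ F b := by
  unfold len
  rw [← real_pre ξ a (measurableSet_Df hF (measurable_T b hF))]
  refine le_trans (measureReal_mono ?_) (measureReal_union_le _ _)
  intro ω hω
  have e : T (a * b) ω = T b (T a ω) := rfl
  simp only [Df, mem_ofPred_eq, mem_union, mem_preimage, e] at hω ⊢
  tauto

theorem len_inv {F : Set (ℕ → Ξ)} (hF : MeasurableSet F) (a : Equiv.Perm ℕ) :
    len ξ F a⁻¹ ≤ len ξ F a := by
  unfold len
  rw [← real_pre ξ a⁻¹ (measurableSet_Df hF (measurable_T a hF))]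
  refine measureReal_mono ?_
  intro ω hω
  have e : T a (T a⁻¹ ω) = ω := by
    funext n
    simp [T]
  simp only [Df, mem_ofPred_eq, mem_preimage, e] at hω ⊢
  tauto

theorem approx {F : Set (ℕ → Ξ)} (hF : MeasurableSet F) {ε : ℝ} (hε : 0 < ε) :
    ∃ (s : Finset ℕ) (S : Set (s → Ξ)), MeasurableSet S ∧
      (Measure.infinitePi (fun _ : ℕ => ξ)).real (Df F (cylinder s S)) ≤ ε := by
  obtain ⟨t, ht, hlt⟩ := exists_measure_symmDiff_lt_of_generateFrom_isSetRing
    (μ := Measure.infinitePi (fun _ : ℕ => ξ)) (C := measurableCylinders (fun _ : ℕ => Ξ))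
    isSetRing_measurableCylinders
    ⟨{univ}, countable_singleton _, singleton_subset_iff.2 (univ_mem_measurableCylinders _), by simp⟩
    generateFrom_measurableCylinders.symm hF (ENNReal.ofReal_pos.2 hε)
  obtain ⟨s, S, hS, rfl⟩ := (mem_measurableCylinders _).1 ht
  refine ⟨s, S, hS, ?_⟩
  have e : Df F (cylinder s S) = symmDiff (cylinder s S) F := by
    ext ω
    simp only [Df, mem_ofPred_eq, mem_symmDiff]
    tauto
  rw [e]
  exact ENNReal.toReal_le_of_le_ofReal hε.le hlt.le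

theorem len_le_of_close {F H : Set (ℕ → Ξ)} (hF : MeasurableSet F) (hH : MeasurableSet H)
    (a : Equiv.Perm ℕ) :
    len ξ F a ≤ len ξ H a + 2 * (Measure.infinitePi (fun _ : ℕ => ξ)).real (Df F H) := by
  have h1 := real_pre ξ a (measurableSet_Df hF hH)
  have h2 : Df F (T a ⁻¹' F) ⊆ Df H (T a ⁻¹' H) ∪ (Df F H ∪ T a ⁻¹' Df F H) := by
    intro ω hω
    simp only [Df, mem_ofPred_eq, mem_union, mem_preimage] at hω ⊢
    tauto
  have h3 := measureReal_mono (μ := Measure.infinitePi (fun _ : ℕ => ξ)) h2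
  have h4 := measureReal_union_le (μ := Measure.infinitePi (fun _ : ℕ => ξ))
    (Df H (T a ⁻¹' H)) (Df F H ∪ T a ⁻¹' Df F H)
  have h5 := measureReal_union_le (μ := Measure.infinitePi (fun _ : ℕ => ξ))
    (Df F H) (T a ⁻¹' Df F H)
  unfold len
  linarith

theorem len_cont {F : Set (ℕ → Ξ)} (hF : MeasurableSet F) (ε : ℝ) (hε : 0 < ε) :
    ∃ m, ∀ t, Fix m t → len ξ F t ≤ ε := by
  obtain ⟨s, S, hS, h⟩ := approx ξ hF (half_pos hε)
  refine ⟨s.sup id + 1, fun t ht => ?_⟩
  have h1 := len_le_of_close ξ hF (MeasurableSet.cylinder s hS) t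
  have h2 : len ξ (cylinder s S) t = 0 := by
    have e : Df (cylinder s S) (T t ⁻¹' cylinder s S) = (∅ : Set (ℕ → Ξ)) := by
      ext ω
      have : s.restrict (T t ω) = s.restrict ω := by
        funext i
        have hi : (i : ℕ) ≤ s.sup id := Finset.le_sup (f := id) i.2
        simp only [Finset.restrict, T]
        rw [ht i (by omega)]
      simp [Df, mem_cylinder, this]
    unfold len
    rw [e]
    simp
  linarith

theorem indep (s : Finset ℕ) (S : Set (s → Ξ)) (hS : MeasurableSet S) (φ : Equiv.Perm ℕ)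
    (hφ : ∀ i ∈ s, φ i ∉ s) :
    (Measure.infinitePi (fun _ : ℕ => ξ)).real (cylinder s S)
      * (Measure.infinitePi (fun _ : ℕ => ξ)).real (cylinder s S)ᶜ ≤ len ξ (cylinder s S) φ := by
  have hd : Disjoint s (s.image φ) := by
    rw [Finset.disjoint_right]
    intro j hj
    obtain ⟨i, hi, rfl⟩ := Finset.mem_image.1 hj
    exact hφ i hi
  have hI := (ProbabilityTheory.iIndepFun_infinitePi (P := fun _ : ℕ => ξ)
    (X := fun _ ω => ω) (fun _ => measurable_id)).indepFun_finset s (s.image φ) hd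
    (fun i => measurable_pi_apply i)
  let g : (s.image φ → Ξ) → (s → Ξ) := fun w i => w ⟨φ i, Finset.mem_image_of_mem _ i.2⟩
  have hg : Measurable g := by
    refine measurable_pi_lambda _ fun i => measurable_pi_apply _
  have h1 := ProbabilityTheory.indepFun_iff_measure_inter_preimage_eq_mul.1 hI S (g ⁻¹' Sᶜ) hS
    (hg hS.compl)
  have hc : MeasurableSet (cylinder (α := fun _ : ℕ => Ξ) s S) := MeasurableSet.cylinder s hS
  have h2 : Measure.infinitePi (fun _ : ℕ => ξ) (cylinder s S ∩ T φ ⁻¹' (cylinder s S)ᶜ)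
      = Measure.infinitePi (fun _ : ℕ => ξ) (cylinder s S)
        * Measure.infinitePi (fun _ : ℕ => ξ) (T φ ⁻¹' (cylinder s S)ᶜ) := h1
  rw [← real_pre ξ φ hc.compl]
  unfold Measure.real
  rw [← ENNReal.toReal_mul, ← h2]
  refine measureReal_mono ?_
  intro ω hω
  simp only [Df, mem_ofPred_eq, mem_inter_iff, mem_preimage, mem_compl_iff] at hω ⊢
  tauto

theorem real_le_of_close (F H : Set (ℕ → Ξ)) :
    (Measure.infinitePi (fun _ : ℕ => ξ)).real F ≤ (Measure.infinitePi (fun _ : ℕ => ξ)).real H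
      + (Measure.infinitePi (fun _ : ℕ => ξ)).real (Df F H) ∧
    (Measure.infinitePi (fun _ : ℕ => ξ)).real Fᶜ ≤ (Measure.infinitePi (fun _ : ℕ => ξ)).real Hᶜ
      + (Measure.infinitePi (fun _ : ℕ => ξ)).real (Df F H) := by
  constructor
  · refine le_trans (measureReal_mono ?_) (measureReal_union_le _ _)
    intro ω hω
    simp only [Df, mem_ofPred_eq, mem_union]
    tauto
  · refine le_trans (measureReal_mono ?_) (measureReal_union_le _ _)
    intro ω hω
    simp only [Df, mem_ofPred_eq, mem_union, mem_compl_iff] at hω ⊢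
    tauto

theorem trivial_of_small {F : Set (ℕ → Ξ)} (hF : MeasurableSet F) (η : ℝ) (hη : 0 < η)
    (hη1 : η ≤ 1) (n : ℕ) (h1 : ∀ s, Fix n s → len ξ F s ≤ η ^ 2 / 32)
    (h2 : len ξ F (bs 0 n n le_rfl) ≤ η ^ 2 / 32) :
    (Measure.infinitePi (fun _ : ℕ => ξ)).real F ≤ η ∨
      (Measure.infinitePi (fun _ : ℕ => ξ)).real Fᶜ ≤ η := by
  by_contra hcon
  rw [not_or, not_le, not_le] at hcon
  obtain ⟨s, S, hS, h⟩ := approx ξ hF (ε := η ^ 2 / 32) (by positivity)
  have hc : MeasurableSet (cylinder (α := fun _ : ℕ => Ξ) s S) := MeasurableSet.cylinder s hS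
  obtain ⟨a, a', ha, ha', hfar⟩ := exists_far n (s.sup id + 1)
  have h3 := indep ξ s S hS (a * (bs 0 n n le_rfl * a')) (by
    intro i hi hj
    have e1 : i ≤ s.sup id := Finset.le_sup (f := id) hi
    have e2 : (a * (bs 0 n n le_rfl * a')) i ≤ s.sup id := Finset.le_sup (f := id) hj
    have := hfar i (by omega)
    omega)
  have h4 := len_le_of_close ξ hc hF (a * (bs 0 n n le_rfl * a'))
  have h5 : Df (cylinder s S) F = Df F (cylinder s S) := by
    ext ω
    simp only [Df, mem_ofPred_eq]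
    tauto
  rw [h5] at h4
  have h6 := len_mul ξ hF a (bs 0 n n le_rfl * a')
  have h7 := len_mul ξ hF (bs 0 n n le_rfl) a'
  have h8 := h1 a ha
  have h9 := h1 a' ha'
  obtain ⟨b1, b2⟩ := real_le_of_close ξ F (cylinder s S)
  have hsq : η ^ 2 ≤ η := by nlinarith
  have c1 : η / 2 ≤ (Measure.infinitePi (fun _ : ℕ => ξ)).real (cylinder s S) := by
    linarith [hcon.1]
  have c2 : η / 2 ≤ (Measure.infinitePi (fun _ : ℕ => ξ)).real (cylinder s S)ᶜ := by
    linarith [hcon.2]
  have c3 := mul_le_mul c1 c2 (by positivity) (le_trans (by positivity) c1)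
  have : 0 < η ^ 2 := by positivity
  nlinarith

end OuterAux

open OuterAux in
theorem outer {Ξ ι : Type} [MeasurableSpace Ξ] [Countable ι] (ξ : Measure Ξ)
    [IsProbabilityMeasure ξ] (F : ι → Set (ℕ → Ξ)) (hF : ∀ v, MeasurableSet (F v))
    (h : ∀ π : Equiv.Perm ℕ, Tendsto (fun v => Measure.infinitePi (fun _ : ℕ => ξ)
      {ω | ¬ (ω ∈ F v ↔ (fun n => ω (π n)) ∈ F v)}) cofinite (𝓝 0))
    (η : ℝ≥0∞) (hη : 0 < η) :
    ∀ᶠ v in cofinite, Measure.infinitePi (fun _ : ℕ => ξ) (F v) ≤ η ∨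
      Measure.infinitePi (fun _ : ℕ => ξ) (F v)ᶜ ≤ η := by
  have h' : ∀ π, Tendsto (fun v => len ξ (F v) π) cofinite (𝓝 0) := fun π =>
    (ENNReal.tendsto_toReal ENNReal.zero_ne_top).comp (h π)
  obtain ⟨r, hr0, hr1, hr⟩ : ∃ r : ℝ, 0 < r ∧ r ≤ 1 ∧ ENNReal.ofReal r ≤ η := by
    have hm : min η 1 ≠ ⊤ := ne_top_of_le_ne_top ENNReal.one_ne_top (min_le_right _ _)
    refine ⟨(min η 1).toReal, ENNReal.toReal_pos (lt_min hη one_pos).ne' hm, ?_, ?_⟩
    · exact ENNReal.toReal_le_of_le_ofReal one_pos.le (by simp)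
    · rw [ENNReal.ofReal_toReal hm]
      exact min_le_left _ _
  obtain ⟨n, hn⟩ := uniform (fun v => len ξ (F v)) (fun v => len_mul ξ (hF v))
    (fun v => len_inv ξ (hF v)) (fun v => len_cont ξ (hF v)) h' (r ^ 2 / 32) (by positivity)
  have h2 : ∀ᶠ v in cofinite, len ξ (F v) (bs 0 n n le_rfl) < r ^ 2 / 32 :=
    (h' _).eventually (gt_mem_nhds (by positivity))
  filter_upwards [hn, h2] with v a b
  have key : ∀ A : Set (ℕ → Ξ), (Measure.infinitePi (fun _ : ℕ => ξ)).real A ≤ r →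
      Measure.infinitePi (fun _ : ℕ => ξ) A ≤ η := by
    intro A hA
    refine le_trans ?_ hr
    rw [← ofReal_measureReal (measure_ne_top _ A)]
    exact ENNReal.ofReal_le_ofReal hA
  exact (trivial_of_small ξ (hF v) r hr0 hr1 n a b.le).imp (key _) (key _)

end Pool.Agent.MP_12f186_an
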