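import Mathlib

/-! Literal definitions of the objects of the problem: the free part of the full shift, directed
Hamiltonian paths of the lattice, ergodic invariant measures, and conjugacy. -/

set_option autoImplicit false
open MeasureTheory

namespace Pool.Agent.MP_12f186_an.Own

/-- the shift: `(shift g x) h = x (h + g)` -/
def shift (g : ℤ × ℤ) (x : ℤ × ℤ → Bool) : ℤ × ℤ → Bool := fun h => x (h + g)

/-- the free part of the full shift, with the Borel structure inherited from the product -/
abbrev X2 : Type := {x : ℤ × ℤ → Bool // ∀ g : ℤ × ℤ, g ≠ 0 → shift g x ≠ x}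

theorem shift_free (g : ℤ × ℤ) (x : X2) (k : ℤ × ℤ) (hk : k ≠ 0) :
    shift k (shift g x.1) ≠ shift g x.1 := by
  intro h
  refine x.2 k hk (funext fun w => ?_)
  have h1 := congrFun h (w - g)
  simp only [shift] at h1 ⊢
  have h2 : w - g + k + g = w + k := by abel
  rw [sub_add_cancel, h2] at h1
  exact h1

/-- the shift action on the free part -/
def sigma (g : ℤ × ℤ) (x : X2) : X2 := ⟨shift g x.1, shift_free g x⟩

/-- directed edges (tail, head) of the Cayley graph for the generators and their inverses -/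
abbrev Edge : Type :=
  {e : (ℤ × ℤ) × (ℤ × ℤ) // e.2 - e.1 ∈ ({(1, 0), (-1, 0), (0, 1), (0, -1)} : Set (ℤ × ℤ))}

theorem translate_mem (g : ℤ × ℤ) (e : Edge) :
    (e.1.2 + g) - (e.1.1 + g) ∈ ({(1, 0), (-1, 0), (0, 1), (0, -1)} : Set (ℤ × ℤ)) := by
  rw [add_sub_add_right_eq_sub]
  exact e.2

/-- the edge `e + g` -/
def translate (g : ℤ × ℤ) (e : Edge) : Edge := ⟨(e.1.1 + g, e.1.2 + g), translate_mem g e⟩

/-- the set of edges with indicator `P` is a directed bi-infinite Hamiltonian path: every vertex
has exactly one outgoing and exactly one incoming edge, and the spanning subgraph is connected -/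
def IsHamPath (P : Edge → Bool) : Prop :=
  (∀ v : ℤ × ℤ, ∃! e : Edge, P e = true ∧ e.1.1 = v) ∧
  (∀ v : ℤ × ℤ, ∃! e : Edge, P e = true ∧ e.1.2 = v) ∧
  ∀ v w : ℤ × ℤ, Relation.EqvGen (fun a b => ∃ e : Edge, P e = true ∧ e.1 = (a, b)) v w

/-- the space of paths, with the Borel structure inherited from the product over the edges -/
abbrev XH : Type := {P : Edge → Bool // IsHamPath P}

/-- shift invariant ergodic Borel probability measure on the free part -/
def IsErgodicInvariant (μ : Measure X2) : Prop :=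
  IsProbabilityMeasure μ ∧ (∀ g : ℤ × ℤ, MeasurePreserving (sigma g) μ μ) ∧
  ∀ E : Set X2, MeasurableSet E → (∀ g : ℤ × ℤ, sigma g ⁻¹' E = E) → μ E = 0 ∨ μ E = 1

/-- conjugacy of two measures for the family of maps `F`: invariant conull Borel sets and a
measure preserving Borel bijection between them that commutes with every `F i` -/
def Conjugate {ι : Type} (F : ι → X2 → X2) (μ ν : Measure X2) : Prop :=
  ∃ A B : Set X2, MeasurableSet A ∧ MeasurableSet B ∧ μ Aᶜ = 0 ∧ ν Bᶜ = 0 ∧
    (∀ i, F i ⁻¹' A = A) ∧ (∀ i, F i ⁻¹' B = B) ∧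
    ∃ ψ : A → B, Function.Bijective ψ ∧
      MeasurePreserving ψ (μ.comap Subtype.val) (ν.comap Subtype.val) ∧
      ∀ (i : ι) (x y : A), (y : X2) = F i x → (ψ y : X2) = F i (ψ x)

end Pool.Agent.MP_12f186_an.Own
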